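import Pool.Agent.H48.ER.Targets

/-!
# MP_816b90_co: the second case (CLB)
-/

set_option autoImplicit false

open Pool.Agent.H48.ER

namespace Pool.Agent.H29.ER

theorem pf_CLB (hM1 : T_M1) (hM3 : T_M3) (hDES : T_DES) (hDEG : T_DEG) (hPF : T_PF)
    (hSB1 : T_SB1) (hSB3 : T_SB3) : T_CLB := by
  intro V _ G S H f t u a b n P c J i s hC htS hpc hpar hP hi hti hs hsk
  obtain ⟨D1, D2, D3, D4, D5, D6⟩ := hDES V H f hC.peo t
  obtain ⟨F1, F2, F3, F4, F5, F6, F7, F8, F9, F10, F11, F12, F13, F14⟩ := hPF V G a b n P c J _ _ hP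
  obtain ⟨U1, U2, U3, U4⟩ := D3 u hpar
  have hle : ∀ x ∈ insert t (upper H f t), f t ≤ f x := by
    rintro x (rfl | hx)
    · exact le_rfl
    · exact hx.2.le
  have hlt : ∀ v, par H f v t → ∀ x ∈ dn H f v, f x < f t := by
    intro v hv x hx
    exact lt_of_le_of_lt ((hDES V H f hC.peo v).1 x hx) (D3 v hv).2.1
  have hsQ : s ∉ upper H f u := fun h => hsk.2 (Or.inr h)
  have hst : s ≠ t := by
    rintro rfl
    exact lt_irrefl _ hs.2
  -- the later neighbours of `t`
  have hup : upper H f t = insert s (upper H f u \ {t}) := by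
    symm
    refine Set.eq_of_subset_of_ncard_le ?_ ?_ (Set.toFinite _)
    · rintro x (rfl | ⟨hx, hxt⟩)
      · exact hs
      · rcases U4 hx with h | h
        · exact absurd h hxt
        · exact h
    · rw [Set.ncard_insert_of_notMem (fun h => hsQ h.1) (Set.toFinite _),
        Set.ncard_sdiff_singleton_of_mem U3, F2]
      exact hC.peo.card t
  have htv : t ∈ ver P := F8 U3
  have hupv : upper H f t ⊆ ver P := by
    rw [hup]
    rintro x (rfl | hx)
    · exact hsk.1
    · exact F8 hx.1
  -- the other children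
  have hsib : ∀ v, par H f v t → v ≠ u → dn H f v ⊆ ver P := by
    intro v hv hvu
    obtain ⟨V1, V2, V3, V4⟩ := D3 v hv
    have hdis' : Disjoint (upper H f v) (dn H f u) := by
      rw [Set.disjoint_left]
      intro x hx hx'
      exact absurd (hle x (V4 hx)) (not_le.2 (hlt u hpar x hx'))
    have hS : Sib G a b n P c J (dn H f u) (upper H f u) (dn H f v) (upper H f v) t := by
      refine ⟨hP, hpc v hv, ?_, hdis', ?_, U3, V3⟩
      · rw [Set.disjoint_left]
        rintro x hx (hx' | hx')
        · exact Set.disjoint_left.1 (D6 v u hv hpar hvu) hx hx'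
        · exact absurd (hle x (U4 hx')) (not_le.2 (hlt v hv x hx))
      · have key : ∀ x ∈ upper H f v \ upper H f u, x = s := by
          rintro x ⟨hx, hx'⟩
          rcases V4 hx with rfl | h
          · exact absurd U3 hx'
          · rw [hup] at h
            rcases h with h | h
            · exact h
            · exact absurd h.1 hx'
        intro x hx y hy
        rw [key x hx, key y hy]
    have hQv : upper H f v ⊆ ver P := by
      intro x hx
      rcases V4 hx with rfl | h
      · exact htv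
      · exact hupv h
    by_cases hm : ∃ h ∈ dn H f v, h ∈ ver P
    · exact hSB1 V G a b n P c J _ _ _ _ t hC.mc.noh hC.mc.nop hS hQv hm
    · exfalso
      have hdj : Disjoint (dn H f v) (ver P) := by
        rw [Set.disjoint_left]
        exact fun x hx hx' => hm ⟨x, hx, hx'⟩
      obtain ⟨k, v', hJ, hDv, hak, hN⟩ :=
        hSB3 V G a b n P c J _ _ _ _ t hC.mc.noh hC.mc.nop hS hdj
      have hik : i = k := by
        rw [hJ] at hi
        exact Finset.mem_singleton.1 hi
      subst hik
      have hf : ∀ i : Fin 3, i + 1 ≠ i ∧ i + 2 ≠ i ∧ i + 1 ≠ i + 2 := by decide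
      obtain ⟨f1, f2, f3⟩ := hf i
      have hPr := hP.pr.1
      have e1 : c i ≠ a (i + 1) := hPr.ne_of_mem f1.symm (hP.nx i).2 (hPr.a_mem _)
      have e2 : c i ≠ a (i + 2) := hPr.ne_of_mem f2.symm (hP.nx i).2 (hPr.a_mem _)
      have e3 : a (i + 1) ≠ a (i + 2) := hPr.ne_of_mem f3 (hPr.a_mem _) (hPr.a_mem _)
      have hset : ({c i, a (i + 1), a (i + 2)} : Set V) = upper H f v := by
        refine Set.eq_of_subset_of_ncard_le ?_ ?_ (Set.toFinite _)
        · rintro x (rfl | rfl | rfl)
          · exact hti ▸ V3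
          · exact hak _ f1
          · exact hak _ f2
        · rw [Set.ncard_eq_three.2 ⟨_, _, _, e1, e2, e3, rfl⟩]
          exact hC.peo.card v
      have haD : a i ∈ dn H f u := by
        rw [hP.hD]
        exact ⟨i, hi, rfl⟩
      have hvS : v' ∈ S := (hC.mc.sup v' t ((hN t).2 V3)).1
      have haS : a i ∈ S := (hC.mc.sup (a i) (c i) (hP.nx i).1).1
      have hva : v' ≠ a i := by
        rintro rfl
        have : a i ∈ dn H f v := by rw [hDv]; exact rfl
        exact Set.disjoint_left.1 hdj this ⟨i, hPr.a_mem i⟩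
      have hnadj : ¬ G.Adj v' (a i) := by
        intro h
        exact Set.disjoint_left.1 hdis' ((hN _).1 h) haD
      obtain ⟨w, hw1, hw2⟩ := (hM1 V G S hC.mc).2 v' hvS (a i) haS hva hnadj
      apply hw2
      have hw3 := (hN w).1 hw1
      rw [← hset] at hw3
      rcases hw3 with rfl | rfl | rfl
      · exact (hP.nx i).1
      · exact hPr.a_adj f1.symm
      · exact hPr.a_adj f2.symm
  -- all neighbours of `t` are in the prism
  have hnb : ∀ w, G.Adj t w → w ∈ ver P := by
    intro w hw
    have hHw := hC.le hw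
    rcases lt_trichotomy (f t) (f w) with h | h | h
    · exact hupv ⟨hHw, h⟩
    · exact absurd (hC.peo.inj h) hw.ne
    · obtain ⟨v, hv, hwv⟩ := D4 w hHw h
      by_cases e : v = u
      · subst e
        exact F7 hwv
      · exact hsib v hv e hwv
  have htP : t ∈ P i := hti ▸ (hP.nx i).2
  obtain ⟨x1, hx1, y1, hy1, hxy, hxy', hg⟩ := (hDEG V G a b n P hP.pr.1).2.2 i t htP
    (hti ▸ (F5 i).1) (hti ▸ (F5 i).2)
  have hN2 : ∀ w, G.Adj t w → w = x1 ∨ w = y1 := fun w hw => (hg w (hnb w hw)).1 hw
  obtain ⟨x, y, z, hxyz, hxz, hyz, hxy2, -⟩ := hM3 V G S t x1 y1 y1 hC.mc htS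
    (fun w hw => by
      rcases hN2 w hw with h | h
      · exact Or.inl h
      · exact Or.inr (Or.inl h))
  have h1 := hN2 x ((hxyz x).2 (Or.inl rfl))
  have h2 := hN2 y ((hxyz y).2 (Or.inr (Or.inl rfl)))
  have h3 := hN2 z ((hxyz z).2 (Or.inr (Or.inr rfl)))
  have h4 : x ≠ y := hxy2.ne
  rcases h1 with rfl | rfl <;> rcases h2 with rfl | rfl <;> rcases h3 with rfl | rfl <;>
    first
      | exact h4 rfl
      | exact hxz rfl
      | exact hyz rfl

end Pool.Agent.H29.ER
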