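import Pool.Agent.H48.ER.Targets

/-!
# MP_816b90_co: elementary facts on pieces
-/

set_option autoImplicit false

open Pool.Agent.H48.ER

namespace Pool.Agent.H29.ER

variable {V : Type} {G : SimpleGraph V} {a b c : Fin 3 → V} {n : Fin 3 → ℕ} {P : Fin 3 → Set V}
  {J : Finset (Fin 3)} {D Q : Set V}

/-- the vertex of `Q` on the rung `i` -/
def qv (a c : Fin 3 → V) (J : Finset (Fin 3)) (i : Fin 3) : V := if i ∈ J then c i else a i

theorem pc_ca (h : Pc G a b n P c J D Q) (i : Fin 3) : c i ≠ a i := (h.nx i).1.ne'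

theorem pc_cb (h : Pc G a b n P c J D Q) (i : Fin 3) : c i ≠ b i := by
  intro e
  have h1 := (h.nx i).1
  rw [e] at h1
  have h2 := (h.pr.1.ip i).adj_iff.1 h1
  have h3 := h.pr.2 i
  rw [h2] at h3
  exact Nat.not_even_one h3

theorem qv_pos {i : Fin 3} (hi : i ∈ J) : qv a c J i = c i := if_pos hi

theorem qv_neg {i : Fin 3} (hi : i ∉ J) : qv a c J i = a i := if_neg hi

theorem qv_mem (h : Pc G a b n P c J D Q) (i : Fin 3) : qv a c J i ∈ P i := by
  by_cases hi : i ∈ J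
  · rw [qv_pos hi]; exact (h.nx i).2
  · rw [qv_neg hi]; exact h.pr.1.a_mem i

theorem qv_b (h : Pc G a b n P c J D Q) (i : Fin 3) : qv a c J i ≠ b i := by
  by_cases hi : i ∈ J
  · rw [qv_pos hi]; exact pc_cb h i
  · rw [qv_neg hi]; exact h.pr.1.a_ne_b i i

theorem qv_a (h : Pc G a b n P c J D Q) {i : Fin 3} (e : qv a c J i = a i) : i ∉ J := by
  intro hi
  rw [qv_pos hi] at e
  exact pc_ca h i e

theorem Q_eq (h : Pc G a b n P c J D Q) : Q = qv a c J '' Set.univ := by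
  rw [h.hQ]
  ext v
  constructor
  · rintro (⟨i, hi, rfl⟩ | ⟨i, hi, rfl⟩)
    · exact ⟨i, trivial, qv_pos hi⟩
    · exact ⟨i, trivial, qv_neg hi⟩
  · rintro ⟨i, -, rfl⟩
    by_cases hi : i ∈ J
    · exact Or.inl ⟨i, hi, qv_pos hi⟩
    · exact Or.inr ⟨i, hi, qv_neg hi⟩

theorem qv_inj (h : Pc G a b n P c J D Q) : Function.Injective (qv a c J) := by
  intro i j e
  have h1 := qv_mem h i
  rw [e] at h1
  exact h.pr.1.rung h1 (qv_mem h j)

theorem a_inj (h : Pc G a b n P c J D Q) : Function.Injective a := by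
  intro i j e
  have h1 := h.pr.1.a_mem i
  rw [e] at h1
  exact h.pr.1.rung h1 (h.pr.1.a_mem j)

theorem D_eq (h : Pc G a b n P c J D Q) : D = a '' (J : Set (Fin 3)) := by
  rw [h.hD]
  ext v
  constructor
  · rintro ⟨i, hi, rfl⟩
    exact ⟨i, hi, rfl⟩
  · rintro ⟨i, hi, rfl⟩
    exact ⟨i, hi, rfl⟩

theorem pf_PF : T_PF := by
  intro V G a b n P c J D Q h
  have hP := h.pr.1
  have hQm : ∀ q ∈ Q, ∃ i, q = qv a c J i := by
    intro q hq
    rw [Q_eq h] at hq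
    obtain ⟨i, -, e⟩ := hq
    exact ⟨i, e.symm⟩
  have hQi : ∀ i, qv a c J i ∈ Q := by
    intro i
    rw [Q_eq h]
    exact ⟨i, trivial, rfl⟩
  have hDm : ∀ d ∈ D, ∃ i, i ∈ J ∧ d = a i := by
    intro d hd
    rw [h.hD] at hd
    exact hd
  have hDi : ∀ i, i ∈ J → a i ∈ D := by
    intro i hi
    rw [h.hD]
    exact ⟨i, hi, rfl⟩
  have hadj : ∀ h1 ∈ D, ∀ h2 ∈ D, h1 ≠ h2 → G.Adj h1 h2 := by
    intro x hx y hy hxy
    obtain ⟨i, hi, rfl⟩ := hDm x hx
    obtain ⟨j, hj, rfl⟩ := hDm y hy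
    exact hP.a_adj fun e => hxy (by rw [e])
  have hf : ∀ i : Fin 3, i + 1 ≠ i ∧ i + 2 ≠ i ∧ i + 1 ≠ i + 2 ∧ ∀ j, j ≠ i → j = i + 1 ∨ j = i + 2 := by
    decide
  refine ⟨?_, ?_, ?_, ?_, ?_, ?_, ?_, ?_, ?_, ?_, ?_, hadj, ?_, ?_⟩
  · intro q hq q' hq' hqq
    obtain ⟨i, rfl⟩ := hQm q hq
    obtain ⟨j, rfl⟩ := hQm q' hq'
    have hij : i ≠ j := by
      rintro rfl
      exact G.loopless.irrefl _ hqq
    rcases (hP.adj i j hij _ (qv_mem h i) _ (qv_mem h j)).1 hqq with ⟨e1, e2⟩ | ⟨e1, e2⟩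
    · exact ⟨i, j, qv_a h e1, qv_a h e2, e1, e2⟩
    · exact absurd e1 (qv_b h i)
  · rw [Q_eq h, Set.ncard_image_of_injective _ (qv_inj h), Set.ncard_univ]
    simp
  · rw [D_eq h, Set.ncard_image_of_injective _ (a_inj h), Set.ncard_coe_finset]
  · intro i
    constructor
    · intro hb
      obtain ⟨j, e⟩ := hQm _ hb
      have h1 := hP.b_mem i
      rw [e] at h1
      have h2 := hP.rung h1 (qv_mem h j)
      subst h2
      exact qv_b h i e.symm
    · intro hb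
      obtain ⟨j, -, e⟩ := hDm _ hb
      exact hP.a_ne_b j i e.symm
  · exact fun i => ⟨pc_ca h i, pc_cb h i⟩
  · rw [Set.disjoint_left]
    intro x hx hx'
    obtain ⟨i, hi, rfl⟩ := hDm x hx
    obtain ⟨j, e⟩ := hQm _ hx'
    have h1 := hP.a_mem i
    rw [e] at h1
    have h2 := hP.rung h1 (qv_mem h j)
    subst h2
    exact qv_a h e.symm hi
  · intro x hx
    obtain ⟨i, -, rfl⟩ := hDm x hx
    exact ⟨i, hP.a_mem i⟩
  · intro x hx
    obtain ⟨i, rfl⟩ := hQm x hx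
    exact ⟨i, qv_mem h i⟩
  · intro q hq q' hq' hqq
    obtain ⟨i, rfl⟩ := hQm q hq
    obtain ⟨j, rfl⟩ := hQm q' hq'
    exact ⟨i, j, fun e => hqq (by rw [e]), qv_mem h i, qv_mem h j⟩
  · intro x hx w hw
    obtain ⟨i, hi, rfl⟩ := hDm x hx
    rcases h.nb i hi w hw with rfl | ⟨j, -, rfl⟩
    · right
      have := hQi i
      rwa [qv_pos hi] at this
    · by_cases hj : j ∈ J
      · exact Or.inl (hDi j hj)
      · right
        have := hQi j
        rwa [qv_neg hj] at this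
  · intro q hq
    obtain ⟨i, rfl⟩ := hQm q hq
    by_cases hi : i ∈ J
    · exact ⟨a i, hDi i hi, by rw [qv_pos hi]; exact (h.nx i).1⟩
    · obtain ⟨j, hj⟩ := h.ne
      refine ⟨a j, hDi j hj, ?_⟩
      rw [qv_neg hi]
      exact hP.a_adj fun e => hi (e ▸ hj)
  · intro X hX hne hcl
    obtain ⟨x, hx⟩ := hne
    refine Set.Subset.antisymm hX fun d hd => ?_
    by_cases e : x = d
    · exact e ▸ hx
    · exact hcl x hx d hd (hadj x (hX hx) d hd e)
  · intro x hx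
    obtain ⟨i, hi, rfl⟩ := hDm x hx
    obtain ⟨f1, f2, f3, f4⟩ := hf i
    refine ⟨c i, a (i + 1), a (i + 2), ?_, ?_, ?_, ?_⟩
    · exact hP.ne_of_mem f1.symm (h.nx i).2 (hP.a_mem _)
    · exact hP.ne_of_mem f2.symm (h.nx i).2 (hP.a_mem _)
    · exact fun e => f3 (a_inj h e)
    · intro w
      constructor
      · intro hw
        rcases h.nb i hi w hw with rfl | ⟨j, hj, rfl⟩
        · exact Or.inl rfl
        · rcases f4 j hj with rfl | rfl
          · exact Or.inr (Or.inl rfl)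
          · exact Or.inr (Or.inr rfl)
      · rintro (rfl | rfl | rfl)
        · exact (h.nx i).1
        · exact hP.a_adj f1.symm
        · exact hP.a_adj f2.symm

end Pool.Agent.H29.ER
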